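import Pool.Agent.H55.GW.Targets3

/-!
# Module GRP: many windows have local exits
-/

set_option autoImplicit false

namespace Pool.Agent.H19.GW.GRP

open Pool.Agent.H55.GW

theorem rin_symm {F : Frame} {S : Set Vx} {x y : Vx} (h : RIn F.G S x y) : RIn F.G S y x :=
  h.rev.mono (fun _ _ h' _ _ => Frame.G_symm h') subset_rfl

theorem exists_seq (I : Set ℕ) (N : ℕ) (h : 3 * N < I.ncard) :
    ∃ b : ℕ → ℕ, (∀ l < N, b l ∈ I) ∧ ∀ l l', l < l' → l' < N → b l + 3 ≤ b l' := by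
  classical
  have hfin : I.Finite := Set.finite_of_ncard_pos (by omega)
  have hcard : ∀ hf : (Set.ofPred (fun x => x ∈ I)).Finite, I.ncard ≤ hf.toFinset.card := by
    intro hf
    exact (Set.ncard_eq_toFinset_card I hfin).le
  refine ⟨fun l => Nat.nth (fun x => x ∈ I) (3 * l), ?_, ?_⟩
  · intro l hl
    exact Nat.nth_mem (p := fun x => x ∈ I) (3 * l) (fun hf => by
      have := hcard hf; omega)
  · intro l l' hll hl'
    have step : ∀ a, a < 3 * N → Nat.nth (fun x => x ∈ I) a < Nat.nth (fun x => x ∈ I) (a + 1) :=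
      fun a ha => Nat.nth_lt_nth' (Nat.lt_succ_self a) (fun hf => by
        have := hcard hf; omega)
    have h1 := step (3 * l) (by omega)
    have h2 := step (3 * l + 1) (by omega)
    have h3 := step (3 * l + 2) (by omega)
    have h4 : Nat.nth (fun x => x ∈ I) (3 * l + 2 + 1) ≤ Nat.nth (fun x => x ∈ I) (3 * l') := by
      rcases Nat.lt_or_ge (3 * l + 3) (3 * l') with h | h
      · exact (Nat.nth_lt_nth' h (fun hf => by have := hcard hf; omega)).le
      · have : 3 * l + 2 + 1 = 3 * l' := by omega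
        rw [this]
    show Nat.nth (fun x => x ∈ I) (3 * l) + 3 ≤ Nat.nth (fun x => x ∈ I) (3 * l')
    have h2' : Nat.nth (fun x => x ∈ I) (3 * l + 1) < Nat.nth (fun x => x ∈ I) (3 * l + 2) := h2
    omega

/-- few members of a block have no exit -/
theorem few {F : Frame} {m : ℕ → Vx} {φ : ℕ → ℕ} (hφ : Monotone φ) (hE : F.Exits m φ) {σ : ℕ}
    {S : Finset Vx} (hS : S.card ≤ σ) (B : Finset ℕ) (u : ℕ → Vx)
    (hu : ∀ i ∈ B, u i ∈ F.inn ∨ u i ∈ F.snk m) (hinj : Set.InjOn u (B : Set ℕ))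
    (hno : ∀ i ∈ B, ¬ ∃ t ∈ F.snk m, RIn (F.D m) ((S : Set Vx)ᶜ) (u i) t) : B.card ≤ φ σ := by
  classical
  have h1 : (B.image u).card = B.card := Finset.card_image_of_injOn hinj
  rw [← h1]
  refine (hE (B.image u) ?_ S ?_).trans (hφ hS)
  · intro x hx
    obtain ⟨i, hi, rfl⟩ := Finset.mem_image.1 hx
    exact hu i hi
  · intro x hx y hy hr
    obtain ⟨i, hi, rfl⟩ := Finset.mem_image.1 (by simpa using hx : x ∈ B.image u)
    exact hno i hi ⟨y, hy, hr⟩

theorem good {F : Frame} {m : ℕ → Vx} {φ : ℕ → ℕ} (hφ : Monotone φ) (hE : F.Exits m φ) {σ : ℕ}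
    {S : Finset Vx} (hS : S.card ≤ σ) (B : Finset ℕ) (hB : 2 * φ σ < B.card) (u u' : ℕ → Vx)
    (hu : ∀ i ∈ B, u i ∈ F.inn ∨ u i ∈ F.snk m) (hinj : Set.InjOn u (B : Set ℕ))
    (hu' : ∀ i ∈ B, u' i ∈ F.inn ∨ u' i ∈ F.snk m) (hinj' : Set.InjOn u' (B : Set ℕ)) :
    ∃ i ∈ B, (∃ t ∈ F.snk m, RIn (F.D m) ((S : Set Vx)ᶜ) (u i) t) ∧
      ∃ t ∈ F.snk m, RIn (F.D m) ((S : Set Vx)ᶜ) (u' i) t := by
  classical
  by_contra hcon
  set B1 := B.filter (fun i => ¬ ∃ t ∈ F.snk m, RIn (F.D m) ((S : Set Vx)ᶜ) (u i) t) with hB1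
  set B2 := B.filter (fun i => ¬ ∃ t ∈ F.snk m, RIn (F.D m) ((S : Set Vx)ᶜ) (u' i) t) with hB2
  have h1 : B1.card ≤ φ σ := few hφ hE hS B1 u (fun i hi => hu i (Finset.mem_filter.1 hi).1)
    (hinj.mono fun i hi => (Finset.mem_filter.1 (by simpa using hi : i ∈ B1)).1)
    (fun i hi => (Finset.mem_filter.1 hi).2)
  have h2 : B2.card ≤ φ σ := few hφ hE hS B2 u' (fun i hi => hu' i (Finset.mem_filter.1 hi).1)
    (hinj'.mono fun i hi => (Finset.mem_filter.1 (by simpa using hi : i ∈ B2)).1)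
    (fun i hi => (Finset.mem_filter.1 hi).2)
  have h3 : B ⊆ B1 ∪ B2 := by
    intro i hi
    rw [Finset.mem_union]
    by_contra hn
    rw [not_or] at hn
    refine hcon ⟨i, hi, ?_, ?_⟩
    · by_contra h
      exact hn.1 (Finset.mem_filter.2 ⟨hi, h⟩)
    · by_contra h
      exact hn.2 (Finset.mem_filter.2 ⟨hi, h⟩)
  have h4 := (Finset.card_le_card h3).trans (Finset.card_union_le _ _)
  omega

theorem reg_disj {c : Ctx} (hc : c.Ok) {i j : ℕ} (hij : i + 3 ≤ j) (hj : j + 2 ≤ c.T) {x : Vx}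
    (h1 : x ∈ c.Reg i) (h2 : x ∈ c.Reg j) : False :=
  h2.1.2 (hc.mono (i + 2) (j - 1) (by omega) (by omega) h1.1.1)

theorem not_low {c : Ctx} (hc : c.Ok) {j : ℕ} (hj : j ≤ c.T) {S : Set Vx} {x y : Vx}
    (h : RIn (c.F.D c.m) S x y) (hx : x ∉ c.O j) : y ∉ c.O j :=
  h.induct (p := fun z => z ∉ c.O j) hx (fun u v _ _ hd hu hv => hu (hc.inc j hj u v hd hv))

theorem rin_self {D : Vx → Vx → Prop} {S : Set Vx} {x y : Vx} (h : RIn D S x y) :
    RIn D {z | RIn D S x z} x y := by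
  obtain ⟨h1, h2⟩ := h
  induction h2 with
  | refl => exact RIn.refl (RIn.refl h1)
  | @tail b c h3 h4 ih =>
    exact ih.tail h4.1 (RIn.tail ⟨h1, h3⟩ h4.1 h4.2)

theorem grp (hX : T_LEX) : T_GRP := by
  classical
  intro φ hφ σ n
  refine ⟨3 * (n * (2 * φ σ + 1)), ?_⟩
  intro c hc hE hσ I u u' hI hR
  set g := 2 * φ σ + 1 with hg
  obtain ⟨b, hbI, hb⟩ := exists_seq I (n * g) hR
  have hle : ∀ l l', l ≤ l' → l' < n * g → b l ≤ b l' := by
    intro l l' h1 h2
    rcases Nat.lt_or_ge l l' with h | h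
    · have := hb l l' h h2; omega
    · have : l = l' := by omega
      rw [this]
  have hlt : ∀ (j : Fin n) (r : ℕ), r < g → (j : ℕ) * g + r < n * g := by
    intro j r hr
    have h1 : ((j : ℕ) + 1) * g ≤ n * g := Nat.mul_le_mul_right g j.2
    have h2 : ((j : ℕ) + 1) * g = (j : ℕ) * g + g := by ring
    omega
  have hg1 : 1 ≤ g := by omega
  -- the block `j`
  let top : Fin n → ℕ := fun j => b ((j : ℕ) * g) - 1
  let bot : Fin n → ℕ := fun j => b ((j : ℕ) * g + (g - 1)) + 2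
  have hbot : ∀ j, bot j ≤ c.T := by
    intro j
    exact (hI _ (hbI _ (hlt j (g - 1) (by omega)))).2.1
  have htb : ∀ j, top j ≤ bot j := by
    intro j
    have := hle ((j : ℕ) * g) ((j : ℕ) * g + (g - 1)) (by omega) (hlt j (g - 1) (by omega))
    show b ((j : ℕ) * g) - 1 ≤ b ((j : ℕ) * g + (g - 1)) + 2
    omega
  have hnext : ∀ j j' : Fin n, j < j' → bot j ≤ top j' := by
    intro j j' hjj
    have h1 : ((j : ℕ) + 1) * g ≤ (j' : ℕ) * g := Nat.mul_le_mul_right g hjj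
    have h2 : ((j : ℕ) + 1) * g = (j : ℕ) * g + g := by ring
    have h3 := hlt j' 0 (by omega)
    have := hb ((j : ℕ) * g + (g - 1)) ((j' : ℕ) * g) (by omega) (by omega)
    show b ((j : ℕ) * g + (g - 1)) + 2 ≤ b ((j' : ℕ) * g) - 1
    omega
  have main : ∀ j : Fin n, ∃ (i : ℕ) (E E' : Set Vx) (t t' : Vx), i ∈ I ∧
      E ⊆ c.O (bot j) \ c.O (top j) ∧ E' ⊆ c.O (bot j) \ c.O (top j) ∧ t ∈ E ∧ t' ∈ E' ∧
      t ∈ c.F.snk c.m ∧ t' ∈ c.F.snk c.m ∧ RIn c.F.G (c.O (bot j) \ c.O (top j)) t t' ∧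
      (∀ x ∈ E, RIn (c.F.D c.m) E (u i) x) ∧ ∀ x ∈ E', RIn (c.F.D c.m) E' (u' i) x := by
    intro j
    set S : Finset Vx := c.Ξ.image (Sum.inr : ℕ → Vx) ∪
      Finset.univ.image (fun a => (Sum.inr (c.s (bot j) a) : Vx)) with hSdef
    have hScard : S.card ≤ σ := by
      refine (Finset.card_union_le _ _).trans ?_
      have h1 := Finset.card_image_le (s := c.Ξ) (f := (Sum.inr : ℕ → Vx))
      have h2 := Finset.card_image_le (s := (Finset.univ : Finset (Fin c.k)))
        (f := fun a => (Sum.inr (c.s (bot j) a) : Vx))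
      rw [Finset.card_univ, Fintype.card_fin] at h2
      omega
    have hScompl : ((S : Set Vx)ᶜ) ⊆
        {z | (∀ ξ ∈ c.Ξ, z ≠ Sum.inr ξ) ∧ ∀ a, z ≠ Sum.inr (c.s (bot j) a)} := by
      intro z hz
      refine ⟨?_, ?_⟩
      · rintro ξ hξ rfl
        exact hz (by
          rw [Finset.mem_coe, hSdef, Finset.mem_union]
          exact Or.inl (Finset.mem_image_of_mem _ hξ))
      · rintro a rfl
        exact hz (by
          rw [Finset.mem_coe, hSdef, Finset.mem_union]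
          exact Or.inr (Finset.mem_image_of_mem (fun a => (Sum.inr (c.s (bot j) a) : Vx))
            (Finset.mem_univ a)))
    set B : Finset ℕ := (Finset.range g).image (fun r => b ((j : ℕ) * g + r)) with hBdef
    have hbinj : Set.InjOn (fun r => b ((j : ℕ) * g + r)) (Finset.range g : Set ℕ) := by
      intro r hr r' hr' he
      have hr1 : r < g := by simpa using hr
      have hr2 : r' < g := by simpa using hr'
      have he' : b ((j : ℕ) * g + r) = b ((j : ℕ) * g + r') := he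
      by_contra hne
      rcases Nat.lt_or_gt_of_ne hne with h | h
      · have := hb ((j : ℕ) * g + r) ((j : ℕ) * g + r') (by omega) (hlt j r' hr2)
        omega
      · have := hb ((j : ℕ) * g + r') ((j : ℕ) * g + r) (by omega) (hlt j r hr1)
        omega
    have hBcard : 2 * φ σ < B.card := by
      rw [hBdef, Finset.card_image_of_injOn hbinj, Finset.card_range]
      omega
    have hBI : ∀ i ∈ B, i ∈ I ∧ top j + 1 ≤ i ∧ i + 2 ≤ bot j := by
      intro i hi
      obtain ⟨r, hr, rfl⟩ := Finset.mem_image.1 hi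
      have hr1 : r < g := by simpa using hr
      have h1 := hle ((j : ℕ) * g) ((j : ℕ) * g + r) (by omega) (hlt j r hr1)
      have h2 := hle ((j : ℕ) * g + r) ((j : ℕ) * g + (g - 1)) (by omega)
        (hlt j (g - 1) (by omega))
      have h3 := (hI _ (hbI _ (hlt j 0 (by omega)))).1
      rw [Nat.add_zero] at h3
      refine ⟨hbI _ (hlt j r hr1), ?_, ?_⟩
      · show b ((j : ℕ) * g) - 1 + 1 ≤ b ((j : ℕ) * g + r)
        omega
      · show b ((j : ℕ) * g + r) + 2 ≤ b ((j : ℕ) * g + (g - 1)) + 2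
        omega
    have hBgap : ∀ i ∈ B, ∀ i' ∈ B, i < i' → i + 3 ≤ i' := by
      intro i hi i' hi' hlt'
      obtain ⟨r, hr, rfl⟩ := Finset.mem_image.1 hi
      obtain ⟨r', hr', rfl⟩ := Finset.mem_image.1 hi'
      have hr1 : r < g := by simpa using hr
      have hr2 : r' < g := by simpa using hr'
      rcases Nat.lt_or_ge r r' with h | h
      · exact hb _ _ (by omega) (hlt j r' hr2)
      · exfalso
        have := hle ((j : ℕ) * g + r') ((j : ℕ) * g + r) (by omega) (hlt j r hr1)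
        have hlt2 : b ((j : ℕ) * g + r) < b ((j : ℕ) * g + r') := hlt'
        omega
    have hT := hbot j
    have inj : ∀ w : ℕ → Vx, (∀ i ∈ B, w i ∈ c.Reg i) → Set.InjOn w (B : Set ℕ) := by
      intro w hw i hi i' hi' he
      have hi1 : i ∈ B := by simpa using hi
      have hi2 : i' ∈ B := by simpa using hi'
      by_contra hne
      rcases Nat.lt_or_gt_of_ne hne with h | h
      · refine reg_disj hc (hBgap i hi1 i' hi2 h) ?_ (hw i hi1) (he ▸ hw i' hi2)
        have := (hBI i' hi2).2.2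
        omega
      · refine reg_disj hc (hBgap i' hi2 i hi1 h) ?_ (hw i' hi2) (he ▸ hw i hi1)
        have := (hBI i hi1).2.2
        omega
    obtain ⟨i, hiB, ⟨t, ht, hrt⟩, ⟨t', ht', hrt'⟩⟩ := good hφ hE hScard B hBcard u u'
      (fun i hi => (hI i (hBI i hi).1).2.2.1)
      (inj u fun i hi => (hI i (hBI i hi).1).2.2.2.2.left_mem)
      (fun i hi => (hI i (hBI i hi).1).2.2.2.1)
      (inj u' fun i hi => (hI i (hBI i hi).1).2.2.2.2.right_mem)
    obtain ⟨hiI, hi1, hi2⟩ := hBI i hiB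
    obtain ⟨g1, g2, _, _, hr⟩ := hI i hiI
    have hreg : c.Reg i ⊆ c.O (bot j) \ c.O (top j) := by
      intro x hx
      exact ⟨hc.mono (i + 2) (bot j) hi2 hT hx.1.1,
        fun h => hx.1.2 (hc.mono (top j) (i - 1) (by omega) (by omega) h)⟩
    have hsub : ∀ w, w ∈ c.Reg i → ∀ x, RIn (c.F.D c.m) ((S : Set Vx)ᶜ) w x →
        x ∈ c.O (bot j) \ c.O (top j) := by
      intro w hw x hx
      have h1 := hreg hw
      refine ⟨?_, not_low hc ((htb j).trans hT) hx h1.2⟩
      exact (hX c hc (bot j) hT w x (hx.mono_set hScompl)).1 h1.1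
    refine ⟨i, {x | RIn (c.F.D c.m) ((S : Set Vx)ᶜ) (u i) x},
      {x | RIn (c.F.D c.m) ((S : Set Vx)ᶜ) (u' i) x}, t, t', hiI,
      fun x hx => hsub _ hr.left_mem x hx, fun x hx => hsub _ hr.right_mem x hx, hrt, hrt', ht,
      ht', ?_, fun x hx => rin_self hx, fun x hx => rin_self hx⟩
    have w1 : RIn c.F.G (c.O (bot j) \ c.O (top j)) (u i) t :=
      (rin_self hrt).mono (fun _ _ h _ _ => Frame.D_G h) (fun x hx => hsub _ hr.left_mem x hx)
    have w2 : RIn c.F.G (c.O (bot j) \ c.O (top j)) (u' i) t' :=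
      (rin_self hrt').mono (fun _ _ h _ _ => Frame.D_G h) (fun x hx => hsub _ hr.right_mem x hx)
    exact (rin_symm w1).trans ((hr.mono_set hreg).trans w2)
  choose ix E E' t t' hmain using main
  refine ⟨ix, fun j => c.O (bot j) \ c.O (top j), E, E', t, t', ?_, hmain⟩
  have hd : ∀ j j' : Fin n, j < j' →
      Disjoint (c.O (bot j) \ c.O (top j)) (c.O (bot j') \ c.O (top j')) := by
    intro j j' hjj
    rw [Set.disjoint_left]
    intro x hx hx'
    exact hx'.2 (hc.mono (bot j) (top j') (hnext j j' hjj) ((htb j').trans (hbot j')) hx.1)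
  intro j j' hne
  rcases lt_or_gt_of_ne hne with h | h
  · exact hd j j' h
  · exact (hd j' j h).symm

end Pool.Agent.H19.GW.GRP
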