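import Pool.Agent.H55.GW.Targets3

/-!
# Module TRB: a good window preserves rail states and adds only unbroken pairs
-/

set_option autoImplicit false

namespace Pool.Agent.H19.GW.TRB

open Pool.Agent.H55.GW

variable {c : Ctx}

theorem rin_symm {F : Frame} {S : Set Vx} {x y : Vx} (h : RIn F.G S x y) : RIn F.G S y x :=
  h.rev.mono (fun _ _ h' _ _ => Frame.G_symm h') subset_rfl

theorem xi_not_mid (hc : c.Ok) {ξ : ℕ} (hξ : ξ ∈ c.Ξ) {i : ℕ} (hi : i < c.T)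
    (h1 : Sum.inr ξ ∈ c.O (i + 1)) (h2 : Sum.inr ξ ∉ c.O i) : False := by
  rcases (hc.xiV ξ hξ).2 with h | h
  · exact h2 (hc.mono 0 i (Nat.zero_le _) (by omega) h)
  · exact h (hc.mono (i + 1) c.T (by omega) le_rfl h1)

theorem mid_reg (hc : c.Ok) {i : ℕ} (h1 : 1 ≤ i) (h2 : i + 2 ≤ c.T) {x : Vx}
    (hx : x ∈ c.O (i + 1)) (hx' : x ∉ c.O i) : x ∈ c.Reg i := by
  refine ⟨⟨hc.mono (i + 1) (i + 2) (by omega) h2 hx,
    fun h => hx' (hc.mono (i - 1) i (by omega) (by omega) h)⟩, ?_⟩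
  rintro ⟨ξ, hξ, rfl⟩
  exact xi_not_mid hc (by simpa using hξ) (by omega) hx hx'

theorem s_not_im (hc : c.Ok) {i : ℕ} (hi : i ≤ c.T) (a : Fin c.k) :
    (Sum.inr (c.s i a) : Vx) ∉ (Sum.inr '' (c.Ξ : Set ℕ) : Set Vx) := by
  rintro ⟨ξ, hξ, he⟩
  have h : ξ = c.s i a := by simpa using he
  exact (hc.sV i hi a).2.1 (by rw [← h]; simpa using hξ)

theorem port0_reg (hc : c.Ok) {i : ℕ} (h1 : 1 ≤ i) (h2 : i + 2 ≤ c.T) (a : Fin c.k) :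
    Sum.inr (c.s i a) ∈ c.Reg i := by
  cases hty : c.ty a
  · obtain ⟨h3, h4, h5⟩ := hc.sI i (by omega) a hty
    exact mid_reg hc h1 h2 (h5 (i + 1) (by omega) (by omega)) h4
  · obtain ⟨h3, h4, h5⟩ := hc.sO i (by omega) a hty
    exact ⟨⟨hc.mono i (i + 2) (by omega) h2 h4, h5 (i - 1) (by omega)⟩,
      s_not_im hc (by omega) a⟩

theorem port1_reg (hc : c.Ok) {i : ℕ} (h1 : 1 ≤ i) (h2 : i + 2 ≤ c.T) (a : Fin c.k) :
    Sum.inr (c.s (i + 1) a) ∈ c.Reg i := by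
  cases hty : c.ty a
  · obtain ⟨h3, h4, h5⟩ := hc.sI (i + 1) (by omega) a hty
    exact ⟨⟨h5 (i + 2) (by omega) h2, fun h => h4 (hc.mono (i - 1) (i + 1) (by omega) (by omega) h)⟩,
      s_not_im hc (by omega) a⟩
  · obtain ⟨h3, h4, h5⟩ := hc.sO (i + 1) (by omega) a hty
    exact mid_reg hc h1 h2 h4 (h5 i (by omega))

theorem win_symm {i : ℕ} {x y : Vx} (h : c.win i x y) : c.win i y x :=
  ⟨h.1.symm, fun h' => h.2 h'.symm⟩

theorem win_end (hL : T_LOWB) (hc : c.Ok) {i : ℕ} (h1 : 1 ≤ i) (h2 : i + 2 ≤ c.T) {x y : Vx}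
    (h : c.win i x y) : x ∈ c.Reg i ∨ ∃ ξ ∈ c.Ξ, x = Sum.inr ξ := by
  rcases (hL c hc i (by omega)).2.2.1 x y h with h3 | h3 | ⟨a, ⟨_, h3⟩ | ⟨_, h3⟩⟩
  · exact Or.inl (mid_reg hc h1 h2 h3.1 h3.2)
  · exact Or.inr h3
  · exact Or.inl (h3 ▸ port0_reg hc h1 h2 a)
  · exact Or.inl (h3 ▸ port1_reg hc h1 h2 a)

theorem pmat_edge {F : Frame} {ed : Vx → Vx → Prop} {J : Set ℕ} {m : ℕ → Vx}
    (h : PMat F ed J m) {v : ℕ} (hv : v ∈ J) :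
    F.G (Sum.inr v) (m v) ∧ ed (m v) (Sum.inr v) := by
  rcases (h v hv).2 with ⟨e, h1, h2, h3⟩ | ⟨u, hu, h1, h2, h3, h4⟩
  · rw [h1]; exact ⟨h2, h3⟩
  · rw [h1]; exact ⟨Frame.G_symm h3, h4⟩

/-- restriction of a partial matching to a set of vertices -/
def rst (J : Set ℕ) (m : ℕ → Vx) (KK : Set Vx) : Set ℕ :=
  {v | v ∈ J ∧ (Sum.inr v ∈ KK ∨ m v ∈ KK)}

theorem pmat_rst {F : Frame} {ed : Vx → Vx → Prop} {J : Set ℕ} {m : ℕ → Vx}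
    (h : PMat F ed J m) (KK : Set Vx) :
    PMat F (fun x y => ed x y ∧ (x ∈ KK ∨ y ∈ KK)) (rst J m KK) m := by
  intro v hv
  refine ⟨(h v hv.1).1, ?_⟩
  rcases (h v hv.1).2 with ⟨e, h1, h2, h3⟩ | ⟨u, hu, h1, h2, h3, h4⟩
  · refine Or.inl ⟨e, h1, h2, h3, ?_⟩
    rw [← h1]
    exact hv.2.symm
  · refine Or.inr ⟨u, ⟨hu, ?_⟩, h1, h2, h3, h4, ?_⟩
    · rw [h2, ← h1]
      exact hv.2.symm
    · rw [← h1]
      exact hv.2.symm

open Classical in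
theorem bal_sum (hB : T_BAL) {F : Frame} {ed ed' : Vx → Vx → Prop} {J J' : Set ℕ}
    {m m' : ℕ → Vx} (h1 : PMat F ed J m) (h2 : PMat F ed' J' m')
    (h3 : ∀ e v, F.att e v → ((v ∈ J ∧ m v = Sum.inl e) ↔ (v ∈ J' ∧ m' v = Sum.inl e))) :
    ∑ v ∈ F.V, (if F.isP v then (1 : ℤ) else -1) *
      ((if v ∈ J then 1 else 0) - (if v ∈ J' then 1 else 0)) = 0 := by
  have key : ∀ {ed : Vx → Vx → Prop} {J : Set ℕ} {m : ℕ → Vx}, PMat F ed J m →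
      ∑ v ∈ F.V, (if F.isP v then (1 : ℤ) else -1) * (if v ∈ J then 1 else 0) =
        ({v | v ∈ J ∧ F.isP v}.ncard : ℤ) - ({v | v ∈ J ∧ ¬ F.isP v}.ncard : ℤ) := by
    intro ed J m hp
    have e1 : {v | v ∈ J ∧ F.isP v} = ((F.V.filter fun v => v ∈ J ∧ F.isP v : Finset ℕ) : Set ℕ) := by
      ext v
      simp only [Set.mem_ofPred_eq, Finset.coe_filter]
      exact ⟨fun h => ⟨(hp v h.1).1, h⟩, fun h => h.2⟩
    have e2 : {v | v ∈ J ∧ ¬ F.isP v} =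
        ((F.V.filter fun v => v ∈ J ∧ ¬ F.isP v : Finset ℕ) : Set ℕ) := by
      ext v
      simp only [Set.mem_ofPred_eq, Finset.coe_filter]
      exact ⟨fun h => ⟨(hp v h.1).1, h⟩, fun h => h.2⟩
    rw [e1, e2, Set.ncard_coe_finset, Set.ncard_coe_finset, Finset.card_filter,
      Finset.card_filter]
    push_cast
    rw [← Finset.sum_sub_distrib]
    refine Finset.sum_congr rfl fun v _ => ?_
    by_cases hv : v ∈ J <;> by_cases hp : F.isP v <;> simp [hv, hp]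
  have h4 := hB F ed ed' J J' m m' h1 h2 h3
  simp only [mul_sub, Finset.sum_sub_distrib]
  rw [key h1, key h2]
  have h5 : (({v | v ∈ J ∧ F.isP v}.ncard : ℤ)) + ({v | v ∈ J' ∧ ¬ F.isP v}.ncard : ℤ) =
      ({v | v ∈ J' ∧ F.isP v}.ncard : ℤ) + ({v | v ∈ J ∧ ¬ F.isP v}.ncard : ℤ) := by
    exact_mod_cast h4
  linarith

/-- the situation of the module -/
structure Su (c : Ctx) (i : ℕ) (μ μ₁ : ℕ → Vx) (K K' : Set ℕ) (Y Y' : Set (Fin c.k)) (Jw : Set ℕ) :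
    Prop where
  ok : c.Ok
  gw : c.GoodW i
  KX : K ⊆ (c.Ξ : Set ℕ)
  KK : K' ⊆ K
  p0 : PMat c.F (c.win i) (c.Jz i) μ
  p1 : PMat c.F (c.win i) Jw μ₁
  jw : ∀ v, (v ∈ Jw ↔ (v ∈ c.Jz i ∧ (∀ a, v ≠ c.s i a) ∧
      ∀ a, v ≠ c.s (i + 1) a) ∨ (v ∈ K ∧ v ∉ K') ∨ (∃ a ∈ Y, v = c.s i a) ∨
      ∃ a, a ∉ Y' ∧ v = c.s (i + 1) a)
  leaf : ∀ e v, c.F.att e v → ((v ∈ Jw ∧ μ₁ v = Sum.inl e) ↔ (v ∈ c.Jz i ∧ μ v = Sum.inl e))

/-- closed subsets of the region -/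
structure Cl (c : Ctx) (i : ℕ) (KK : Set Vx) : Prop where
  sub : KK ⊆ c.Reg i
  cl : ∀ x ∈ KK, ∀ y ∈ c.Reg i, c.F.G x y → y ∈ KK

theorem cl_comp (c : Ctx) (i : ℕ) (x : Vx) : Cl c i {y | RIn c.F.G (c.Reg i) x y} :=
  ⟨fun _ h => h.right_mem, fun _ hy _ hz h => RIn.tail hy h hz⟩

section

variable {i : ℕ} {μ μ₁ : ℕ → Vx} {K K' : Set ℕ} {Y Y' : Set (Fin c.k)} {Jw : Set ℕ}

theorem mate_out (hL : T_LOWB) (hc : c.Ok) (h1 : 1 ≤ i) (h2 : i + 2 ≤ c.T) {J : Set ℕ}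
    {m : ℕ → Vx} (hp : PMat c.F (c.win i) J m) {KK : Set Vx} (hK : Cl c i KK) {v : ℕ}
    (hv : v ∈ J) (hm : m v ∈ KK) (hn : Sum.inr v ∉ KK) : v ∈ c.Ξ := by
  obtain ⟨h3, h4⟩ := pmat_edge hp hv
  rcases win_end hL hc h1 h2 (win_symm h4) with h | ⟨ξ, hξ, he⟩
  · exact absurd (hK.cl _ hm _ h (Frame.G_symm h3)) hn
  · have : v = ξ := by simpa using he
    rw [this]; exact hξ

theorem not_xi_of_reg {v : ℕ} (h : (Sum.inr v : Vx) ∈ c.Reg i) : v ∉ c.Ξ := fun hv =>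
  h.2 ⟨v, by simpa using hv, rfl⟩

theorem Su.jz_not_xi (S : Su c i μ μ₁ K K' Y Y' Jw) {v : ℕ} (hv : v ∈ c.Jz i) : v ∉ c.Ξ :=
  fun h => xi_not_mid S.ok h (by have := S.gw.2.1; omega) hv.2.1 hv.2.2

theorem Su.jw_xi (S : Su c i μ μ₁ K K' Y Y' Jw) {v : ℕ} (hv : v ∈ c.Ξ) :
    v ∈ Jw ↔ v ∈ K ∧ v ∉ K' := by
  have hT := S.gw.2.1
  rw [S.jw]
  constructor
  · rintro (h | h | ⟨a, _, h⟩ | ⟨a, _, h⟩)
    · exact absurd hv (S.jz_not_xi h.1)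
    · exact h
    · exact absurd (h ▸ hv) (S.ok.sV i (by omega) a).2.1
    · exact absurd (h ▸ hv) (S.ok.sV (i + 1) (by omega) a).2.1
  · exact fun h => Or.inr (Or.inl h)

theorem Su.jw_reg (S : Su c i μ μ₁ K K' Y Y' Jw) {v : ℕ} (hv : (Sum.inr v : Vx) ∈ c.Reg i)
    (hp : ∀ a, ¬ c.Prt i a (Sum.inr v)) : v ∈ Jw ↔ v ∈ c.Jz i := by
  have h0 : ∀ a, v ≠ c.s i a := fun a h => hp a (Or.inl (by rw [h]))
  have h1 : ∀ a, v ≠ c.s (i + 1) a := fun a h => hp a (Or.inr (by rw [h]))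
  rw [S.jw]
  constructor
  · rintro (h | h | ⟨a, _, h⟩ | ⟨a, _, h⟩)
    · exact h.1
    · exact absurd (by simpa using S.KX h.1) (not_xi_of_reg hv)
    · exact absurd h (h0 a)
    · exact absurd h (h1 a)
  · exact fun h => Or.inl ⟨h, h0, h1⟩

theorem Su.rst0 (hL : T_LOWB) (S : Su c i μ μ₁ K K' Y Y' Jw) {KK : Set Vx} (hK : Cl c i KK)
    {v : ℕ} : v ∈ rst (c.Jz i) μ KK ↔ v ∈ c.Jz i ∧ Sum.inr v ∈ KK := by
  constructor
  · rintro ⟨h1, h2⟩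
    refine ⟨h1, ?_⟩
    by_contra hn
    exact S.jz_not_xi h1
      (mate_out hL S.ok S.gw.1 S.gw.2.1 S.p0 hK h1 (h2.resolve_left hn) hn)
  · exact fun h => ⟨h.1, Or.inl h.2⟩

theorem Su.rst1 (hL : T_LOWB) (S : Su c i μ μ₁ K K' Y Y' Jw) {KK : Set Vx} (hK : Cl c i KK)
    {v : ℕ} : v ∈ rst Jw μ₁ KK ↔ (v ∈ Jw ∧ Sum.inr v ∈ KK) ∨
      (v ∈ K ∧ v ∉ K' ∧ μ₁ v ∈ KK) := by
  constructor
  · rintro ⟨h1, h2⟩
    by_cases hn : (Sum.inr v : Vx) ∈ KK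
    · exact Or.inl ⟨h1, hn⟩
    · have h3 := h2.resolve_left hn
      have h4 := mate_out hL S.ok S.gw.1 S.gw.2.1 S.p1 hK h1 h3 hn
      have h5 := (S.jw_xi h4).1 h1
      exact Or.inr ⟨h5.1, h5.2, h3⟩
  · rintro (⟨h1, h2⟩ | ⟨h1, h2, h3⟩)
    · exact ⟨h1, Or.inl h2⟩
    · exact ⟨(S.jw v).2 (Or.inr (Or.inl ⟨h1, h2⟩)), Or.inr h3⟩

open Classical in
theorem Su.zero (hB : T_BAL) (S : Su c i μ μ₁ K K' Y Y' Jw) (KK : Set Vx) :
    ∑ v ∈ c.F.V, (if c.F.isP v then (1 : ℤ) else -1) *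
      ((if v ∈ rst Jw μ₁ KK then 1 else 0) - (if v ∈ rst (c.Jz i) μ KK then 1 else 0)) = 0 := by
  refine bal_sum hB (pmat_rst S.p1 KK) (pmat_rst S.p0 KK) ?_
  intro e v hv
  have h := S.leaf e v hv
  constructor
  · rintro ⟨⟨h1, h2⟩, h3⟩
    obtain ⟨h4, h5⟩ := h.1 ⟨h1, h3⟩
    refine ⟨⟨h4, ?_⟩, h5⟩
    rwa [h5, ← h3]
  · rintro ⟨⟨h1, h2⟩, h3⟩
    obtain ⟨h4, h5⟩ := h.2 ⟨h1, h3⟩
    refine ⟨⟨h4, ?_⟩, h5⟩
    rwa [h5, ← h3]

/-- the mate of a vertex of `Ξ` is in the region -/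
theorem Su.mate_reg (hL : T_LOWB) (S : Su c i μ μ₁ K K' Y Y' Jw) {ξ : ℕ} (h1 : ξ ∈ K)
    (h2 : ξ ∉ K') : c.F.G (Sum.inr ξ) (μ₁ ξ) ∧ μ₁ ξ ∈ c.Reg i := by
  have hX : ξ ∈ c.Ξ := by simpa using S.KX h1
  have hJ : ξ ∈ Jw := (S.jw_xi hX).2 ⟨h1, h2⟩
  obtain ⟨h3, h4⟩ := pmat_edge S.p1 hJ
  refine ⟨h3, ?_⟩
  rcases win_end hL S.ok S.gw.1 S.gw.2.1 h4 with h | h
  · exact h
  · exfalso
    have hT := S.gw.2.1
    exact (hL c S.ok i (by omega)).2.2.2.1 _ _ h4 ⟨h, ⟨ξ, hX, rfl⟩⟩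

/-- two different vertices of `Ξ` on the same side are not connected -/
theorem Su.xx (S : Su c i μ μ₁ K K' Y Y' Jw) {ξ ξ' : ℕ} (h1 : ξ ∈ c.Ξ) (h2 : ξ' ∈ c.Ξ)
    (hs : Sum.inr ξ ∈ c.O 0 ↔ Sum.inr ξ' ∈ c.O 0) {x y : Vx} (hx : c.F.G (Sum.inr ξ) x)
    (hy : c.F.G (Sum.inr ξ') y) (h : RIn c.F.G (c.Reg i) x y) : ξ = ξ' := by
  by_contra hne
  exact S.gw.2.2.2.1 ⟨ξ, h1, ξ', h2, hne, hs, x, y, hx, hy, h⟩

/-- every vertex of `K \ K'` has a partner on the other side -/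
theorem Su.partner (hL : T_LOWB) (hB : T_BAL) (S : Su c i μ μ₁ K K' Y Y' Jw) {ζ : ℕ}
    (h1 : ζ ∈ K) (h2 : ζ ∉ K') : ∃ ζ', ζ' ∈ K ∧ ζ' ∉ K' ∧
      ¬ (Sum.inr ζ ∈ c.O 0 ↔ Sum.inr ζ' ∈ c.O 0) ∧ RIn c.F.G (c.Reg i) (μ₁ ζ) (μ₁ ζ') := by
  classical
  by_contra hcon'
  have hcon : ∀ ζ', ζ' ∈ K → ζ' ∉ K' → ¬ (Sum.inr ζ ∈ c.O 0 ↔ Sum.inr ζ' ∈ c.O 0) →
      ¬ RIn c.F.G (c.Reg i) (μ₁ ζ) (μ₁ ζ') := fun ζ' h3 h4 h5 h6 => hcon' ⟨ζ', h3, h4, h5, h6⟩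
  have hX : ζ ∈ c.Ξ := by simpa using S.KX h1
  obtain ⟨hG, hR⟩ := S.mate_reg hL h1 h2
  have hK := cl_comp c i (μ₁ ζ)
  have hz := S.zero hB {y | RIn c.F.G (c.Reg i) (μ₁ ζ) y}
  have hprt : ∀ v a, Sum.inr v ∈ {y | RIn c.F.G (c.Reg i) (μ₁ ζ) y} →
      ¬ c.Prt i a (Sum.inr v) := by
    intro v a hv hp
    exact S.gw.2.2.2.2 ⟨ζ, hX, a, _, _, hG, hp, hv⟩
  have hV : ζ ∈ c.F.V := (S.ok.xiV ζ hX).1
  rw [Finset.sum_eq_single ζ] at hz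
  · have e1 : ζ ∈ rst Jw μ₁ {y | RIn c.F.G (c.Reg i) (μ₁ ζ) y} :=
      (S.rst1 hL hK).2 (Or.inr ⟨h1, h2, RIn.refl hR⟩)
    have e2 : ζ ∉ rst (c.Jz i) μ {y | RIn c.F.G (c.Reg i) (μ₁ ζ) y} := fun h =>
      S.jz_not_xi h.1 hX
    rw [if_pos e1, if_neg e2] at hz
    by_cases hp : c.F.isP ζ
    · rw [if_pos hp] at hz; norm_num at hz
    · rw [if_neg hp] at hz; norm_num at hz
  · intro v _ hne
    have : (v ∈ rst Jw μ₁ {y | RIn c.F.G (c.Reg i) (μ₁ ζ) y}) ↔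
        (v ∈ rst (c.Jz i) μ {y | RIn c.F.G (c.Reg i) (μ₁ ζ) y}) := by
      rw [S.rst1 hL hK, S.rst0 hL hK]
      constructor
      · rintro (⟨h3, h4⟩ | ⟨h3, h4, h5⟩)
        · exact ⟨(S.jw_reg (hK.sub h4) (fun a => hprt v a h4)).1 h3, h4⟩
        · exfalso
          have hs : Sum.inr ζ ∈ c.O 0 ↔ Sum.inr v ∈ c.O 0 := by
            by_contra hns
            exact hcon v h3 h4 (fun h => hns h) h5
          obtain ⟨hG', _⟩ := S.mate_reg hL h3 h4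
          exact hne (S.xx hX (by simpa using S.KX h3) hs hG hG' h5).symm
      · rintro ⟨h3, h4⟩
        exact Or.inl ⟨(S.jw_reg (hK.sub h4) (fun a => hprt v a h4)).2 h3, h4⟩
    by_cases h : v ∈ rst (c.Jz i) μ {y | RIn c.F.G (c.Reg i) (μ₁ ζ) y}
    · rw [if_pos h, if_pos (this.2 h)]; simp
    · rw [if_neg h, if_neg (fun h' => h (this.1 h'))]; simp
  · exact fun h => absurd hV h

theorem s_inj (hc : c.Ok) {i j : ℕ} (hi : i ≤ c.T) (hj : j ≤ c.T) {a b : Fin c.k}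
    (h : c.s i a = c.s j b) : a = b := by
  by_contra hne
  have h1 := (hc.sV i hi a).2.2
  rw [h] at h1
  exact Set.disjoint_left.1 (hc.dTr a b hne) h1 (hc.sV j hj b).2.2

theorem s_ne (hc : c.Ok) {i : ℕ} (hi : i + 1 ≤ c.T) (a b : Fin c.k) :
    c.s i a ≠ c.s (i + 1) b := by
  intro h
  have hab := s_inj hc (by omega) hi h
  subst hab
  cases hty : c.ty a
  · have h1 := (hc.sI i (by omega) a hty).2.2 (i + 1) (by omega) hi
    rw [h] at h1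
    exact (hc.sI (i + 1) hi a hty).2.1 h1
  · have h1 := (hc.sO i (by omega) a hty).2.1
    rw [h] at h1
    exact (hc.sO (i + 1) hi a hty).2.2 i (by omega) h1

/-- the rail states agree -/
theorem Su.rail (hL : T_LOWB) (hB : T_BAL) (S : Su c i μ μ₁ K K' Y Y' Jw) (a : Fin c.k) :
    a ∈ Y ↔ a ∈ Y' := by
  classical
  have hc := S.ok
  have g1 := S.gw.1
  have g2 := S.gw.2.1
  have hp0 := port0_reg hc g1 g2 a
  have hp1 := port1_reg hc g1 g2 a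
  set KK : Set Vx := {y | RIn c.F.G (c.Reg i) (Sum.inr (c.s i a)) y} with hKK
  have hK : Cl c i KK := cl_comp c i _
  have m0 : Sum.inr (c.s i a) ∈ KK := RIn.refl hp0
  have m1 : Sum.inr (c.s (i + 1) a) ∈ KK := by
    refine (hc.seg i (by omega) a).mono (fun _ _ h _ _ => Frame.D_G h) ?_
    rintro x ⟨_, h | h | h⟩
    · exact mid_reg hc g1 g2 h.1 h.2
    · rw [h]; exact hp0
    · rw [h]; exact hp1
  have hprt : ∀ v b, (Sum.inr v : Vx) ∈ KK → c.Prt i b (Sum.inr v) → b = a := by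
    intro v b hv hp
    by_contra hne
    exact S.gw.2.2.1 ⟨a, b, _, _, Ne.symm hne, Or.inl rfl, hp, hv⟩
  have hxi : ∀ ξ ∈ c.Ξ, ∀ x, c.F.G (Sum.inr ξ) x → x ∉ KK := by
    intro ξ hξ x hx hxK
    exact S.gw.2.2.2.2 ⟨ξ, hξ, a, x, _, hx, Or.inl rfl, rin_symm hxK⟩
  have hne : c.s i a ≠ c.s (i + 1) a := s_ne hc (by omega) a a
  have hz := S.zero hB KK
  have r1 : ∀ v, v ∈ rst Jw μ₁ KK ↔ v ∈ Jw ∧ Sum.inr v ∈ KK := by
    intro v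
    rw [S.rst1 hL hK]
    constructor
    · rintro (h | ⟨h3, h4, h5⟩)
      · exact h
      · exact absurd h5 (hxi v (by simpa using S.KX h3) _ (S.mate_reg hL h3 h4).1)
    · exact Or.inl
  have hsub : ({c.s i a, c.s (i + 1) a} : Finset ℕ) ⊆ c.F.V := by
    intro v hv
    simp only [Finset.mem_insert, Finset.mem_singleton] at hv
    rcases hv with rfl | rfl
    · exact (hc.sV i (by omega) a).1
    · exact (hc.sV (i + 1) (by omega) a).1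
  rw [← Finset.sum_subset hsub, Finset.sum_pair hne] at hz
  · have i0 : c.s i a ∈ rst Jw μ₁ KK ↔ a ∈ Y := by
      rw [r1, S.jw]
      constructor
      · rintro ⟨h | h | ⟨b, hb, h⟩ | ⟨b, _, h⟩, _⟩
        · exact absurd rfl (h.2.1 a)
        · exact absurd (by simpa using S.KX h.1) (hc.sV i (by omega) a).2.1
        · rw [s_inj hc (by omega) (by omega) h]; exact hb
        · exact absurd h (s_ne hc (by omega) a b)
      · exact fun h => ⟨Or.inr (Or.inr (Or.inl ⟨a, h, rfl⟩)), m0⟩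
    have i1 : c.s (i + 1) a ∈ rst Jw μ₁ KK ↔ a ∉ Y' := by
      rw [r1, S.jw]
      constructor
      · rintro ⟨h | h | ⟨b, hb, h⟩ | ⟨b, hb, h⟩, _⟩
        · exact absurd rfl (h.2.2 a)
        · exact absurd (by simpa using S.KX h.1) (hc.sV (i + 1) (by omega) a).2.1
        · exact absurd h.symm (s_ne hc (by omega) b a)
        · rw [s_inj hc (by omega) (by omega) h]; exact hb
      · exact fun h => ⟨Or.inr (Or.inr (Or.inr ⟨a, h, rfl⟩)), m1⟩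
    have j0 : c.s i a ∈ rst (c.Jz i) μ KK ↔ c.ty a = false := by
      rw [S.rst0 hL hK]
      constructor
      · rintro ⟨h, _⟩
        cases hty : c.ty a
        · rfl
        · exact absurd (hc.sO i (by omega) a hty).2.1 h.2.2
      · intro hty
        have h := hc.sI i (by omega) a hty
        exact ⟨⟨(hc.sV i (by omega) a).1, h.2.2 (i + 1) (by omega) (by omega), h.2.1⟩, m0⟩
    have j1 : c.s (i + 1) a ∈ rst (c.Jz i) μ KK ↔ c.ty a = true := by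
      rw [S.rst0 hL hK]
      constructor
      · rintro ⟨h, _⟩
        cases hty : c.ty a
        · exact absurd h.2.1 (hc.sI (i + 1) (by omega) a hty).2.1
        · rfl
      · intro hty
        have h := hc.sO (i + 1) (by omega) a hty
        exact ⟨⟨(hc.sV (i + 1) (by omega) a).1, h.2.1, h.2.2 i (by omega)⟩, m1⟩
    cases hty : c.ty a
    · have p0 := (hc.sI i (by omega) a hty).1
      have p1 := (hc.sI (i + 1) (by omega) a hty).1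
      rw [hty] at j0 j1
      rw [if_neg p0, if_neg p1, if_pos (j0.2 rfl), if_neg (show ¬ _ from fun h =>
        absurd (j1.1 h) (by simp))] at hz
      by_cases hy : a ∈ Y <;> by_cases hy' : a ∈ Y'
      · exact ⟨fun _ => hy', fun _ => hy⟩
      · rw [if_pos (i0.2 hy), if_pos (i1.2 hy')] at hz; norm_num at hz
      · rw [if_neg (fun h => hy (i0.1 h)), if_neg (fun h => (i1.1 h) hy')] at hz
        norm_num at hz
      · exact ⟨fun h => absurd h hy, fun h => absurd h hy'⟩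
    · have p0 := (hc.sO i (by omega) a hty).1
      have p1 := (hc.sO (i + 1) (by omega) a hty).1
      rw [hty] at j0 j1
      rw [if_pos p0, if_pos p1, if_neg (show ¬ _ from fun h => absurd (j0.1 h) (by simp)),
        if_pos (j1.2 rfl)] at hz
      by_cases hy : a ∈ Y <;> by_cases hy' : a ∈ Y'
      · exact ⟨fun _ => hy', fun _ => hy⟩
      · rw [if_pos (i0.2 hy), if_pos (i1.2 hy')] at hz; norm_num at hz
      · rw [if_neg (fun h => hy (i0.1 h)), if_neg (fun h => (i1.1 h) hy')] at hz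
        norm_num at hz
      · exact ⟨fun h => absurd h hy, fun h => absurd h hy'⟩
  · intro v _ hv
    simp only [Finset.mem_insert, Finset.mem_singleton, not_or] at hv
    have : v ∈ rst Jw μ₁ KK ↔ v ∈ rst (c.Jz i) μ KK := by
      rw [r1, S.rst0 hL hK]
      refine and_congr_left fun h => S.jw_reg (hK.sub h) ?_
      intro b hp
      have hb := hprt v b h hp
      subst hb
      rcases hp with h' | h'
      · exact hv.1 (by simpa using h')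
      · exact hv.2 (by simpa using h')
    by_cases h : v ∈ rst (c.Jz i) μ KK
    · rw [if_pos h, if_pos (this.2 h)]; simp
    · rw [if_neg h, if_neg (fun h' => h (this.1 h'))]; simp

end

theorem trb (hB : T_BAL) (hKP : T_KPR) (hL : T_LOWB) : T_TRB := by
  classical
  intro c hc i hg C μ hμ K hK K' hK' Y Y' _ hcv
  obtain ⟨hC, hp0, hC0, _, hbrk⟩ := hμ
  obtain ⟨_, μ₁, hp1, hC1⟩ := hcv
  have g1 := hg.1
  have g2 := hg.2.1
  have hLi := hL c hc i (by omega)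
  have hwe : ∀ {J : Set ℕ} {m : ℕ → Vx}, PMat c.F (c.win i) J m → ∀ e v, c.F.att e v → v ∈ J →
      m v = Sum.inl e → e ∈ c.We i := by
    intro J m hp e v hev hv hm
    have h := (pmat_edge hp hv).2
    rw [hm] at h
    exact (hLi.2.1 e v hev).1 h
  have hbs : ∀ (J : Set ℕ) (m : ℕ → Vx) (e v : ℕ), c.F.att e v →
      (Bs c.F J m e ↔ (c.F.isP v ↔ ¬ (v ∈ J ∧ m v = Sum.inl e))) := by
    intro J m e v hev
    constructor
    · rintro (⟨w, hw, h⟩ | ⟨h, _⟩)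
      · rw [c.F.att_uniq e v w hev hw]; exact h
      · exact absurd hev (h v)
    · exact fun h => Or.inl ⟨v, hev, h⟩
  have S : Su c i μ μ₁ K K' Y Y' (c.cvS i K Y \ c.cvS (i + 1) K' Y') := by
    refine ⟨hc, hg, hK, hK', hp0, hp1, hLi.2.2.2.2.2.2.2 K K' Y Y' hK hK', ?_⟩
    intro e v hev
    by_cases he : e ∈ c.We i
    · have h1 := (hbs _ μ₁ e v hev).symm.trans ((hC1 e he).symm.trans ((hC0 e he).trans
        (hbs _ μ e v hev)))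
      by_cases ha : v ∈ c.cvS i K Y \ c.cvS (i + 1) K' Y' ∧ μ₁ v = Sum.inl e <;>
      by_cases hb : v ∈ c.Jz i ∧ μ v = Sum.inl e <;> by_cases hP : c.F.isP v <;>
      simp only [ha, hb, hP] at h1 ⊢ <;> simp at h1
    · constructor
      · exact fun h => absurd (hwe hp1 e v hev h.1 h.2) he
      · exact fun h => absurd (hwe hp0 e v hev h.1 h.2) he
  refine ⟨Set.ext fun a => S.rail hL hB a, ?_⟩
  have hex : ∀ ζ, ∃ ζ', ζ ∈ K → ζ ∉ K' → ζ' ∈ K ∧ ζ' ∉ K' ∧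
      ¬ (Sum.inr ζ ∈ c.O 0 ↔ Sum.inr ζ' ∈ c.O 0) ∧ RIn c.F.G (c.Reg i) (μ₁ ζ) (μ₁ ζ') := by
    intro ζ
    by_cases h : ζ ∈ K ∧ ζ ∉ K'
    · obtain ⟨ζ', h1⟩ := S.partner hL hB h.1 h.2
      exact ⟨ζ', fun _ _ => h1⟩
    · exact ⟨0, fun h1 h2 => absurd ⟨h1, h2⟩ h⟩
  choose g hgg using hex
  have hmem : ∀ ζ, ζ ∈ K → ζ ∈ c.Ξ := fun ζ h => by simpa using hK h
  have hgO : ∀ ξ ∈ K \ K', Sum.inr ξ ∈ c.O 0 → Sum.inr (g ξ) ∉ c.O 0 := by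
    intro ξ hξ h0 h1
    exact (hgg ξ hξ.1 hξ.2).2.2.1 ⟨fun _ => h1, fun _ => h0⟩
  refine ⟨g, ?_, ?_, ?_⟩
  · rintro ξ ⟨hξ, h0⟩ ξ' ⟨hξ', h0'⟩ he
    have h1 := hgg ξ hξ.1 hξ.2
    have h2 := hgg ξ' hξ'.1 hξ'.2
    rw [he] at h1
    exact S.xx (hmem ξ hξ.1) (hmem ξ' hξ'.1) ⟨fun _ => h0', fun _ => h0⟩
      (S.mate_reg hL hξ.1 hξ.2).1 (S.mate_reg hL hξ'.1 hξ'.2).1
      (h1.2.2.2.trans (rin_symm h2.2.2.2))
  · intro ξ hξ h0
    obtain ⟨h1, h2, h3, h4⟩ := hgg ξ hξ.1 hξ.2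
    have hη0 := hgO ξ hξ h0
    refine ⟨⟨h1, h2⟩, hη0, ?_⟩
    have hηT : Sum.inr (g ξ) ∉ c.O c.T := ((hc.xiV _ (hmem _ h1)).2).resolve_left hη0
    intro hb
    have hKk := hKP c hc i hg ξ (hmem ξ hξ.1) (g ξ) (hmem _ h1) h0 hηT
    refine hbrk ξ (hmem ξ hξ.1) (g ξ) (hmem _ h1) h0 hηT hb ⟨fun e he => he.2, μ₁, ?_, ?_⟩
    all_goals
      have hcl : Cl c i (c.Kset i ξ (g ξ)) :=
        ⟨fun x hx => (hKk.1 x hx).1, fun x hx y hy hxy => hKk.2.1 x hx y hy hxy⟩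
      obtain ⟨gξ, rξ⟩ := S.mate_reg hL hξ.1 hξ.2
      obtain ⟨gη, rη⟩ := S.mate_reg hL h1 h2
      have kξ : μ₁ ξ ∈ c.Kset i ξ (g ξ) := ⟨⟨_, gξ, RIn.refl rξ⟩, ⟨_, gη, rin_symm h4⟩⟩
      have kη : μ₁ (g ξ) ∈ c.Kset i ξ (g ξ) := ⟨⟨_, gξ, h4⟩, ⟨_, gη, RIn.refl rη⟩⟩
      have heq : rst (c.cvS i K Y \ c.cvS (i + 1) K' Y') μ₁ (c.Kset i ξ (g ξ)) =
          c.KV i ξ (g ξ) ∪ {ξ, g ξ} := by
        ext v
        rw [S.rst1 hL hcl]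
        constructor
        · rintro (⟨h5, h6⟩ | ⟨h5, h6, h7⟩)
          · exact Or.inl ⟨(S.jw_reg (hKk.1 _ h6).1 (hKk.1 _ h6).2).1 h5, h6⟩
          · exact Or.inr (hKk.2.2.1 v (hmem v h5) _ h7 (S.mate_reg hL h5 h6).1)
        · rintro (⟨h5, h6⟩ | h5 | h5)
          · exact Or.inl ⟨(S.jw_reg (hKk.1 _ h6).1 (hKk.1 _ h6).2).2 h5, h6⟩
          · rw [h5]; exact Or.inr ⟨hξ.1, hξ.2, kξ⟩
          · rw [h5]; exact Or.inr ⟨h1, h2, kη⟩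
    · rw [← heq]
      exact pmat_rst hp1 _
    · intro e he
      rw [← heq]
      have h5 : Bs c.F (c.cvS i K Y \ c.cvS (i + 1) K' Y') μ₁ e ↔
          Bs c.F (rst (c.cvS i K Y \ c.cvS (i + 1) K' Y') μ₁ (c.Kset i ξ (g ξ))) μ₁ e := by
        have h6 : ∀ v, (v ∈ c.cvS i K Y \ c.cvS (i + 1) K' Y' ∧ μ₁ v = Sum.inl e) ↔
            (v ∈ rst (c.cvS i K Y \ c.cvS (i + 1) K' Y') μ₁ (c.Kset i ξ (g ξ)) ∧
              μ₁ v = Sum.inl e) := by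
          intro v
          constructor
          · rintro ⟨h7, h8⟩
            exact ⟨⟨h7, Or.inr (by rw [h8]; exact he.2)⟩, h8⟩
          · rintro ⟨h7, h8⟩
            exact ⟨h7.1, h8⟩
        unfold Bs
        simp only [h6]
      rw [← h5, ← hC1 e he.1]
      exact ⟨fun h => h.1, fun h => ⟨h, he⟩⟩
  · intro η hη h0
    obtain ⟨h1, h2, h3, h4⟩ := hgg η hη.1 hη.2
    have h5 : Sum.inr (g η) ∈ c.O 0 := by
      by_contra h
      exact h3 ⟨fun h' => absurd h' h0, fun h' => absurd h' h⟩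
    refine ⟨g η, ⟨h1, h2⟩, h5, ?_⟩
    obtain ⟨h6, h7, h8, h9⟩ := hgg (g η) h1 h2
    have h10 := hgO (g η) ⟨h1, h2⟩ h5
    exact S.xx (hmem _ h6) (hmem η hη.1) ⟨fun h => absurd h h10, fun h => absurd h h0⟩
      (S.mate_reg hL h6 h7).1 (S.mate_reg hL hη.1 hη.2).1 (rin_symm (h4.trans h9))

end Pool.Agent.H19.GW.TRB
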